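import Pool.Agent.W525.Final

/-!
# MP_79c67d_ag, Q1: Butler's conjecture fails in every genus `g ≥ 3`

Let `C` be a curve of genus `g ≥ 3` without `g¹₂`, for example a general curve of genus `g ≥ 3`. The
locus `S_0(2 g - 2, 4 g - 3, 2 g)` of the generated coherent systems is not empty, so it has
irreducible components; every `(E, V)` in it has a dual span, of type `(2, 4 g - 3, 2 g)`; and no
coherent system of the type `(2, 4 g - 3, 2 g)` is `α`-stable for `0 < α ≤ 1 / (2 g)`, so
`S_0(2, 4 g - 3, 2 g)` is empty. Hence for every component of `S_0(2 g - 2, 4 g - 3, 2 g)` no member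
has an `α`-stable dual span for small `α`, and there is no birational equivalence between
`S_0(2 g - 2, 4 g - 3, 2 g)` and `S_0(2, 4 g - 3, 2 g)`.

The curve is given by its function field, vector bundles by local frames, see
`Pool/Agent/Helper395/CS/Defs.lean` and `Pool/Agent/Helper395/BC/Defs.lean`. The moduli space
`G_0(n, d, k)`, its Zariski topology and dual spans are defined in
`Pool/Agent/H294R3/CohSys/Defs.lean`, and `S0` in `Pool/Agent/W525/Final.lean`.
-/

namespace Pool.Agent.Results.MP_79c67d_ag.ButlerAllGenera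

open Pool.Agent.Helper395.CS hiding genus
open Pool.Agent.Helper395.BC
open Pool.Agent.H294R3.CohSys
open Pool.Agent.W525.BA

/-- On every curve of genus `g ≥ 3` without `g¹₂`: the locus `S_0(2 g - 2, 4 g - 3, 2 g)` has an
irreducible component, all its members are generated and have a dual span of type
`(2, 4 g - 3, 2 g)`, and no coherent system of this type is `α`-stable for `0 < α ≤ 1 / (2 g)`. -/
theorem result (K : Type) [Field K] [Algebra ℂ K] (hK : IsCurve K) (hg : 3 ≤ genus K)
    (hne : HasNoPencilOfDegreeTwo K) :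
    (∃ Z ∈ irreducibleComponents (S0 K (2 * genus K - 2) (4 * genus K - 3) (2 * genus K)),
      Z.Nonempty) ∧
    (∀ S : SystemG0 K (2 * genus K - 2) (4 * genus K - 3) (2 * genus K),
      S.point ∈ S0 K (2 * genus K - 2) (4 * genus K - 3) (2 * genus K) →
      IsGeneratedBy S.1.bundle S.1.space ∧
      ∃ T : CoherentSystem K 2 (4 * genus K - 3) (2 * genus K), IsDualSpan S.1 T) ∧
    ∀ (T : CoherentSystem K 2 (4 * genus K - 3) (2 * genus K)) (α : ℝ), 0 < α →
      α ≤ 1 / (2 * genus K) → ¬ T.IsStable α := by
  refine ⟨?_, fun S hS => ?_, fun T α hα0 hα => ?_⟩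
  · obtain ⟨x, hx⟩ := S0_nonempty hK hg hne
    exact ⟨irreducibleComponent ⟨x, hx⟩, irreducibleComponent_mem_irreducibleComponents _,
      ⟨_, mem_irreducibleComponent⟩⟩
  · have hgen := generated_of_mem_S0 hS
    exact ⟨hgen, dualSpan_exists hK hg S.1 S.2 hgen⟩
  · refine not_stable_two hK (by omega) T ?_
    have h1 : (0 : ℝ) < 2 * genus K := by
      have : 0 < genus K := by omega
      positivity
    rwa [le_div_iff₀ h1] at hα

end Pool.Agent.Results.MP_79c67d_ag.ButlerAllGenera
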